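import Mathlib
import Pool.Agent.Lib.helper12.Six

namespace Pool.Agent.Results.MP_4595ea_al.Right

open Pool.Agent.Lib.helper12.Six

abbrev K := TrivSqZeroExt ℚ ℚ

instance : Module.Finite ℚ K := inferInstanceAs (Module.Finite ℚ (ℚ × ℚ))

def P (r : A K) : Prop :=
  r.1.fst = 0 ∧ r.2.1.fst = 0 ∧ r.2.2.2.1.fst = 0 ∧ r.2.2.2.2.1.fst = 0

lemma P_mk (a b c d e f : K) :
    P (mk a b c d e f) ↔ a.fst = 0 ∧ b.fst = 0 ∧ d.fst = 0 ∧ e.fst = 0 := Iff.rfl

def I : Submodule (A K)ᵐᵒᵖ (A K) where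
  carrier := {r | P r}
  zero_mem' := by simp [zero_eq, P_mk]
  add_mem' := by
    intro x y hx hy
    induction x using ind; induction y using ind
    simp only [Set.mem_setOf_eq, mk_add, P_mk] at *
    simp [hx, hy]
  smul_mem' := by
    intro c x hx
    show P (x * c.unop)
    generalize c.unop = y
    induction x using ind; induction y using ind
    simp only [Set.mem_setOf_eq, mk_mul, P_mk] at *
    simp [hx]

theorem result : ∃ (R : Type) (_ : Ring R) (_ : Algebra ℚ R),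
    FiniteDimensional ℚ R ∧ IsAddTorsionFree R ∧ Module.rank ℤ R < Cardinal.aleph0 ∧
    (∀ a : R, a ≠ 0 → ∃ x ∈ Subring.center R, ∃ y ∈ Subring.center R,
      x ≠ 0 ∧ y ≠ 0 ∧ a * x = y) ∧
    ∃ I : Submodule Rᵐᵒᵖ R, (∀ J : Submodule Rᵐᵒᵖ R, J ≠ ⊥ → I ⊓ J ≠ ⊥) ∧
      ∃ r : R, ∃ x ∈ I, r * x ∉ I := by
  refine ⟨A K, inferInstance, inferInstance, inferInstance, .of_module_rat _, ?_, ce, I, ?_,
    mk 0 1 0 0 0 0, mk 0 0 1 0 0 0, ?_, ?_⟩
  · rw [← IsFractionRing.rank_right_eq (R := ℤ) ℚ]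
    exact Module.rank_lt_aleph0 _ _
  · intro J hJ
    obtain ⟨r, hr, h0⟩ := J.exists_mem_ne_zero_of_ne_bot hJ
    rw [Submodule.ne_bot_iff]
    by_cases h : P r
    · exact ⟨r, ⟨h, hr⟩, h0⟩
    · refine ⟨r * mk (TrivSqZeroExt.inr 1) 0 0 0 0 0, ⟨?_, J.smul_mem (MulOpposite.op _) hr⟩, ?_⟩
      · show P _
        induction r using ind
        simp [mk_mul, P_mk]
      · intro h1
        apply h
        induction r using ind
        simp only [mk_mul, zero_eq, mk_inj, P_mk] at *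
        obtain ⟨h1, h2, -, h3, h4, -⟩ := h1
        exact ⟨by simpa using congrArg TrivSqZeroExt.snd h1,
          by simpa using congrArg TrivSqZeroExt.snd h2,
          by simpa using congrArg TrivSqZeroExt.snd h3,
          by simpa using congrArg TrivSqZeroExt.snd h4⟩
  · show P _
    simp [P_mk]
  · show ¬ P _
    simp [mk_mul, P_mk]

end Pool.Agent.Results.MP_4595ea_al.Right
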